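import Pool.Agent.Lib.MP_021685_agTS.A1
import Pool.Agent.Lib.MP_021685_agTS.A2
import Pool.Agent.Lib.MP_021685_agTS.A3
import Pool.Agent.Lib.MP_021685_agTS.A5
import Pool.Agent.Lib.MP_021685_agTS.A8

/-!
# The quotient of the dimensions tends to zero
-/

set_option autoImplicit false
set_option linter.unusedSectionVars false

namespace MP_021685_agTS

open Matrix Function Module Pool.Agent.Lib.MP_802513_ag Pool.Agent.Lib.MP_802513_agH
  Pool.Agent.Lib.MP_802513_agU Pool.Agent.Lib.MP_802513_agS Pool.Agent.Lib.MP_802513_agD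

variable {N : Type*} [Fintype N] [DecidableEq N] {S : Type*} [Fintype S] [DecidableEq S]

/-- **The quotient of the dimensions.** If some tensor is killed by `Γ` but not by all of `ann C`, then the
alternating tensors on `n` copies which are fixed by `C.K` are a vanishing part of those which are killed
by `Γ`.
PROOF. Let `0 < ε`. Take `k` with `η = re (avg ‖g‖) < ε / 2` for `g u = ((1 + φ u) / 2) ^ k`,
`φ = mc w ((nsq w)⁻¹ • w)` (`avg_pow_tendsto`). The image of `Bop g n d` is in `killed Γ n d`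
(`isAlt_Bop`, `DM_Bop_pow`, `hΓ`, `hw`), so `‖tr (Bop g n d)‖ ≤ finrank (killed Γ n d) * η`
(`norm_trace_Bop_le`), and the sum over `d` gives `‖avg (g u * det (1 + u) ^ n)‖ ≤ kdim Γ n * η`
(`sum_trace_Bop` with `him`: `im_det`, `norm_sum_le`). By `conc`, `avg (g u * det (1 + u) ^ n) / tdim n → g 1 = 1`
(`mc_normalized`), so its norm is `≥ 1 / 2` for large `n`, and `tdim n ≤ 2 η kdim Γ n`. As
`tdim n > 0` (`tdim_pos`), `kdim Γ n > 0` and `tdim n / kdim Γ n ≤ 2 η < ε`. -/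
theorem ratio_zero (C : TSys N) {Γ : Submodule ℂ (Matrix (N ⊕ N) (N ⊕ N) ℂ)} (hΓ : Γ ≤ ann C)
    {w : (S → N ⊕ N) → ℂ} (hw : ∀ X ∈ Γ, DM X w = 0) (hne : ∃ X ∈ ann C, DM X w ≠ 0) :
    Filter.Tendsto (fun n : ℕ => (tdim C.K n : ℝ) / (kdim Γ n : ℝ)) Filter.atTop (nhds 0) := by
  classical
  have him : ∀ u ∈ C.K, (1 + u).det.im = 0 := fun u hu => im_det hu.1
  have hw0 : w ≠ 0 := by
    intro h0
    obtain ⟨X, -, h⟩ := hne
    refine h ?_
    funext j
    simp [DM, h0]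
  rw [Metric.tendsto_atTop]
  intro ε hε
  have hA := avg_pow_tendsto C hne
  rw [Metric.tendsto_atTop] at hA
  obtain ⟨k, hk⟩ := hA (ε / 2) (by positivity)
  have hk' := hk k le_rfl
  rw [dist_zero_right] at hk'
  have hgc : Continuous fun u : Matrix (N ⊕ N) (N ⊕ N) ℂ =>
      ((1 + mc w (((nsq w)⁻¹ : ℝ) • w) u) / 2) ^ k :=
    ((continuous_const.add (continuous_mc w _)).div_const 2).pow k
  have hη := lt_of_le_of_lt (Complex.re_le_norm _) hk'
  have hc := (conc (CK_ugrp C) him hgc).norm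
  have hg1 : ‖((1 + mc w (((nsq w)⁻¹ : ℝ) • w) (1 : Matrix (N ⊕ N) (N ⊕ N) ℂ)) / 2) ^ k‖ = 1 := by
    rw [mc_normalized hw0]
    norm_num
  rw [hg1] at hc
  have hev := hc.eventually (lt_mem_nhds (show (1 / 2 : ℝ) < 1 by norm_num))
  obtain ⟨n₀, hn₀⟩ := Filter.eventually_atTop.1 hev
  refine ⟨n₀, fun n hn => ?_⟩
  have h1 := hn₀ n hn
  have htd : (0 : ℝ) < (tdim C.K n : ℝ) := Nat.cast_pos.2 (tdim_pos C.K n)
  rw [norm_div, Complex.norm_natCast, lt_div_iff₀ htd, ← sum_trace_Bop (CK_ugrp C) him hgc n] at h1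
  have h2 : ∀ d ∈ Finset.range (n * Fintype.card (N ⊕ N) + 1),
      ‖(Bop (CK_ugrp C) (fun u => ((1 + mc w (((nsq w)⁻¹ : ℝ) • w) u) / 2) ^ k) n d).trace‖ ≤
        finrank ℂ (killed Γ n d) * ((CK_ugrp C).avg fun u =>
          ((‖((1 + mc w (((nsq w)⁻¹ : ℝ) • w) u) / 2) ^ k‖ : ℝ) : ℂ)).re := fun d _ =>
    norm_trace_Bop_le (CK_ugrp C) hgc n d fun T =>
      ⟨isAlt_Bop (CK_ugrp C) hgc n d T, fun X hX => DM_Bop_pow C (hΓ hX) (hw X hX) _ k n d T⟩
  have h3 := lt_of_lt_of_le h1 ((norm_sum_le _ _).trans (Finset.sum_le_sum h2))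
  rw [← Finset.sum_mul, ← Nat.cast_sum] at h3
  change 1 / 2 * (tdim C.K n : ℝ) < (kdim Γ n : ℝ) * _ at h3
  set η : ℝ := ((CK_ugrp C).avg fun u =>
          ((‖((1 + mc w (((nsq w)⁻¹ : ℝ) • w) u) / 2) ^ k‖ : ℝ) : ℂ)).re with hηdef
  have hkd : (0 : ℝ) < (kdim Γ n : ℝ) := by
    rcases (Nat.cast_nonneg (kdim Γ n) : (0 : ℝ) ≤ (kdim Γ n : ℝ)).lt_or_eq with h | h
    · exact h
    · rw [← h, zero_mul] at h3
      linarith
  rw [dist_zero_right, Real.norm_eq_abs, abs_of_nonneg (div_nonneg htd.le hkd.le), div_lt_iff₀ hkd]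
  have h4 : (kdim Γ n : ℝ) * η < (kdim Γ n : ℝ) * (ε / 2) := mul_lt_mul_of_pos_left hη hkd
  linarith

end MP_021685_agTS
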