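import Pool.Agent.Lib.MP_021685_agTS.G0
import Pool.Agent.Lib.MP_021685_agP.PE
import Pool.Agent.Lib.MP_021685_agS.TI

/-!
# Killed tensors of odd degree
-/

set_option autoImplicit false
set_option linter.unusedSectionVars false

namespace MP_021685_agTS

open Matrix Function Module Filter Pool.Agent.Lib.MP_802513_ag Pool.Agent.Lib.MP_802513_agH
  Pool.Agent.Lib.MP_802513_agU Pool.Agent.Lib.MP_802513_agS Pool.Agent.Lib.MP_802513_agD
  Pool.Agent.Lib.MP_021685_agP Pool.Agent.Lib.MP_021685_agS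
open scoped TensorProduct

variable {I : Type*} [Fintype I] [DecidableEq I]

private noncomputable def B1_hom {J : Type*} [Fintype J] [DecidableEq J] (Z : Matrix J J ℂ)
    (hsq : Z * Z = (1 / 4 : ℂ) • (1 : Matrix J J ℂ)) : ℂ × ℂ →+* Matrix J J ℂ where
  toFun := fun p => ((p.1 + p.2) / 2) • (1 : Matrix J J ℂ) + (p.1 - p.2) • Z
  map_one' := by
    show (((1 : ℂ) + 1) / 2) • (1 : Matrix J J ℂ) + ((1 : ℂ) - 1) • Z = 1
    rw [sub_self, zero_smul, add_zero]
    norm_num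
  map_mul' := by
    rintro ⟨a, b⟩ ⟨c, d⟩
    show ((a * c + b * d) / 2) • (1 : Matrix J J ℂ) + (a * c - b * d) • Z =
      (((a + b) / 2) • (1 : Matrix J J ℂ) + (a - b) • Z) *
        (((c + d) / 2) • (1 : Matrix J J ℂ) + (c - d) • Z)
    rw [add_mul, mul_add, mul_add]
    simp only [Matrix.smul_mul, Matrix.mul_smul, Matrix.one_mul, Matrix.mul_one, hsq, smul_smul]
    module
  map_zero' := by
    show (((0 : ℂ) + 0) / 2) • (1 : Matrix J J ℂ) + ((0 : ℂ) - 0) • Z = 0
    rw [sub_self, zero_smul, add_zero, add_zero, zero_div, zero_smul]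
  map_add' := by
    rintro ⟨a, b⟩ ⟨c, d⟩
    show (((a + c) + (b + d)) / 2) • (1 : Matrix J J ℂ) + ((a + c) - (b + d)) • Z =
      (((a + b) / 2) • (1 : Matrix J J ℂ) + (a - b) • Z) +
        (((c + d) / 2) • (1 : Matrix J J ℂ) + (c - d) • Z)
    module

private theorem B1_cont {J : Type*} [Fintype J] [DecidableEq J] (Z : Matrix J J ℂ)
    (hsq : Z * Z = (1 / 4 : ℂ) • (1 : Matrix J J ℂ)) : Continuous (B1_hom Z hsq) := by
  show Continuous fun p : ℂ × ℂ => ((p.1 + p.2) / 2) • (1 : Matrix J J ℂ) + (p.1 - p.2) • Z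
  fun_prop

private theorem B1_exp {J : Type*} [Fintype J] [DecidableEq J] {Z : Matrix J J ℂ}
    (hsq : Z * Z = (1 / 4 : ℂ) • (1 : Matrix J J ℂ)) :
    NormedSpace.exp ((2 * (Real.pi * Complex.I) : ℂ) • Z) = (-1 : ℂ) • (1 : Matrix J J ℂ) := by
  have h1 : B1_hom Z hsq (NormedSpace.exp ((Real.pi * Complex.I : ℂ), -(Real.pi * Complex.I : ℂ))) =
      NormedSpace.exp (B1_hom Z hsq ((Real.pi * Complex.I : ℂ), -(Real.pi * Complex.I : ℂ))) :=
    open scoped Matrix.Norms.Operator in NormedSpace.map_exp (B1_hom Z hsq) (B1_cont Z hsq) _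
  have h2 : NormedSpace.exp ((Real.pi * Complex.I : ℂ), -(Real.pi * Complex.I : ℂ)) =
      ((-1 : ℂ), (-1 : ℂ)) := by
    refine Prod.ext ?_ ?_
    · rw [Prod.fst_exp]
      show NormedSpace.exp (Real.pi * Complex.I : ℂ) = -1
      rw [← Complex.exp_eq_exp_ℂ, Complex.exp_pi_mul_I]
    · rw [Prod.snd_exp]
      show NormedSpace.exp (-(Real.pi * Complex.I : ℂ)) = -1
      rw [← Complex.exp_eq_exp_ℂ, Complex.exp_neg, Complex.exp_pi_mul_I]
      norm_num
  have h3 : B1_hom Z hsq ((-1 : ℂ), (-1 : ℂ)) = (-1 : ℂ) • (1 : Matrix J J ℂ) := by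
    show ((((-1 : ℂ) + -1) / 2) • (1 : Matrix J J ℂ) + ((-1 : ℂ) - -1) • Z) = _
    rw [sub_self, zero_smul, add_zero]
    norm_num
  have h4 : B1_hom Z hsq ((Real.pi * Complex.I : ℂ), -(Real.pi * Complex.I : ℂ)) =
      (2 * (Real.pi * Complex.I) : ℂ) • Z := by
    show ((((Real.pi * Complex.I : ℂ) + -(Real.pi * Complex.I : ℂ)) / 2) • (1 : Matrix J J ℂ) +
      ((Real.pi * Complex.I : ℂ) - -(Real.pi * Complex.I : ℂ)) • Z) = _
    rw [add_neg_cancel, zero_div, zero_smul, zero_add, sub_neg_eq_add, two_mul]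
  rw [h2, h3, h4] at h1
  exact h1.symm

private theorem B1_neg {J : Type*} [Fintype J] [DecidableEq J] {d : ℕ} (c : ℂ)
    (T : (Fin d → J) → ℂ) : PM (c • (1 : Matrix J J ℂ)) T = c ^ d • T := by
  have h1 : PM (c • (1 : Matrix J J ℂ)) T = c ^ d • PM (1 : Matrix J J ℂ) T := by
    funext j
    simp only [Pool.Agent.Lib.MP_802513_agU.PM, Matrix.smul_apply, smul_eq_mul, Finset.prod_mul_distrib,
      Finset.prod_const, Finset.card_univ, Fintype.card_fin, Pi.smul_apply, Finset.mul_sum]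
    refine Finset.sum_congr rfl fun j' _ => ?_
    ring
  rw [h1, PM_one]

/-- If `Γ` contains an `X` with `X ^ 2 = 1 / 4` then there are no killed tensors of odd degree.
PROOF. (Compare `odd_killed` in `MP_802513_agS/GG.lean`.) Let `Y = 2 X`, `Y ^ 2 = 1`, and let
`D s = D1 (kr n Y) s` be the operator which applies `kr n Y` to the slot `s`. The `D s` commute,
`D s ^ 2 = 1`, and `∑ s, D s T = 0` (`DM_eq_sum`). For a set `A` of slots let
`T A = ∏ s ∈ A, (1 + D s) / 2 * ∏ s ∉ A, (1 - D s) / 2` applied to `T`; then `T = ∑ A, T A` and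
`0 = (∑ s, D s) T A = (|A| - (d - |A|)) T A`, and the number `2 |A| - d` is odd, so not zero: `T A = 0`.
Or: `PM (exp (z (kr n X))) T = T` for all `z` (`PM_exp`), and for `z = 2 π i` the matrix is `- 1`
(`exp (z X) = cosh (z / 2) + 2 sinh (z / 2) X`), so `T = PM (- 1) T = (- 1) ^ d T`. Or: diagonalize `Y`
(`Y` is conjugate to a diagonal matrix with entries `± 1`) and argue as in `odd_killed`. -/
theorem finrank_killed_odd {Γ : Submodule ℂ (Matrix I I ℂ)} {X : Matrix I I ℂ} (hX : X ∈ Γ)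
    (hsq : X * X = (1 / 4 : ℂ) • (1 : Matrix I I ℂ)) (n : ℕ) {d : ℕ} (hd : ¬ 2 ∣ d) :
    finrank ℂ (killed Γ n d) = 0 := by
  have h0 : killed Γ n d = ⊥ := by
    rw [Submodule.eq_bot_iff]
    rintro T ⟨-, hT⟩
    have h1 : kr n X * kr n X = (1 / 4 : ℂ) • (1 : Matrix (Fin n × I) (Fin n × I) ℂ) := by
      rw [← kr_mul, hsq, kr_smul, kr_one]
    have h2 : DM ((2 * (Real.pi * Complex.I) : ℂ) • kr n X) T = 0 := by
      have h3 : DM ((2 * (Real.pi * Complex.I) : ℂ) • kr n X) T =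
          (2 * (Real.pi * Complex.I) : ℂ) • DM (kr n X) T :=
        Pool.Agent.Lib.MP_021685_agP.DM_smul_left _ _ _
      rw [h3, hT X hX, smul_zero]
    have h4 := PM_exp h2
    rw [B1_exp h1, B1_neg, (Nat.not_even_iff_odd.1 fun h => hd h.two_dvd).neg_one_pow] at h4
    have h5 : (2 : ℂ) • T = 0 := by
      have h6 : T + T = 0 := by
        nth_rewrite 2 [← h4]
        rw [neg_one_smul, add_neg_cancel]
      rw [two_smul, h6]
    exact (smul_eq_zero.1 h5).resolve_left two_ne_zero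
  rw [h0, finrank_bot]

end MP_021685_agTS
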