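import Pool.Agent.Lib.MP_021685_agTS.B3
import Pool.Agent.Lib.MP_021685_agS.TI
import Pool.Agent.Lib.MP_021685_agP.PE

/-!
# The Galois Lie algebra kills the Hodge tensors
-/

set_option autoImplicit false
set_option linter.unusedSectionVars false

namespace MP_021685_agTS

open Matrix Function Module Filter Pool.Agent.Lib.MP_802513_ag Pool.Agent.Lib.MP_802513_agH
  Pool.Agent.Lib.MP_802513_agU Pool.Agent.Lib.MP_802513_agS Pool.Agent.Lib.MP_802513_agD
  Pool.Agent.Lib.MP_021685_agP Pool.Agent.Lib.MP_021685_agS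
open scoped TensorProduct

open MP_802513_agC MP_021685_agC

variable {A : AV} {g : ℕ} {b : Basis (Fin (2 * g)) ℝ A.V} {D : PData (Fin (2 * g))}
  {e : Basis (Fin (2 * g)) ℂ (ℂ ⊗[ℤ] A.L)} {N : Type*} [Fintype N] [DecidableEq N]

/-- PROOF. Let `Y` be in the skew part and `u` a rational tensor with `d` slots killed by `J`
(`(fullQ D).T d`). If `d` is odd then `u = 0` (`odd_killed`). If `d = 2 i` let `η` be the form on
`A ^ (2 i)` with the coordinates `mlT u` (`exists_ml_form`); it is a Hodge class (as in the proof of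
`MP_021685_agS.multiplier`: `HasCoord.hodge`, `mlT_cast`, `mlT_eq`, `DX_alt_dl`), its extension
(`exists_extension`) is a Tate class (`G.hodge`), so `Y` kills its coordinates (`isTate_iff_killed`,
`extends_iff`) and the slice `α = id`, which is `u` (`DM_lift_slice`, `mlT_id`). So `Y ∈ (fullQ D).annL`,
and `QSys.ann_of_annL` (see `PE_le` in `MP_021685_agP/PE.lean`). -/
theorem skew_le (G : Gal A) (Fr : FrM D N) (hb : ∀ w, w ∈ A.L ↔ ∀ l, ∃ n : ℤ, b.repr w l = n)
    (he : ∀ (l : Fin (2 * g)) (h : b l ∈ A.L), e l = 1 ⊗ₜ[ℤ] (⟨b l, h⟩ : A.L))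
    (hJ : D.J = Pool.Agent.Lib.MP_802513_agH.rc (Pool.Agent.Lib.MP_802513_agH.Jr b)) :
    PE_g Fr (skewPart e D G.γ) ≤ ann ((fullQ D).CF Fr) := by
  intro Z hZ
  rw [← PE_out Fr Z]
  refine (fullQ D).ann_of_annL Fr fun d u hu => ?_
  have hY : Fr.F * Z * Fr.F' ∈ skewPart e D G.γ := hZ
  obtain ⟨Y, hYdef⟩ : ∃ Y, Y = Fr.F * Z * Fr.F' := ⟨_, rfl⟩
  rw [← hYdef] at hY ⊢
  have hu' : DM D.J (fun j => ((u j : ℚ) : ℂ)) = 0 := hu
  by_cases hd : 2 ∣ d
  · obtain ⟨i, rfl⟩ := hd
    obtain ⟨η, hη⟩ := exists_ml_form b u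
    have hH : IsHodgeClass (powLattice A.L (2 * i)) i η := by
      refine HasCoord.hodge hb (i := i) hη ?_
      intro j
      have h2 : (fun j => ((mlT u j : ℚ) : ℂ)) = mlT (fun j => ((u j : ℚ) : ℂ)) := mlT_cast _
      have h3 : DX (Pool.Agent.Lib.MP_802513_agH.rc (Pool.Agent.Lib.MP_802513_agH.Jr b))
          (mlT (fun j => ((u j : ℚ) : ℂ))) j = 0 := by
        rw [mlT_eq, DX_alt_dl, ← hJ, hu']
        unfold altT dl
        simp
      rw [← h2] at h3
      exact h3
    obtain ⟨θ, hθ⟩ := exists_extension (F := ℂ) hb he hη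
    have hcomb : IsComb (MP_021685_agC.hodge A) (n := 2 * i) (i := i) θ :=
      Submodule.subset_span ⟨η, hH, hθ⟩
    have hT : G.IsTate (n := 2 * i) (i := i) θ := G.hodge _ _ θ hcomb
    have hθ2 := (extends_iff hb he hη).mp hθ
    have h4 := (isTate_iff_killed G hb he hJ (n := 2 * i) (i := i) hθ2).mp hT Y hY
    have h5 := DM_lift_slice Y (fun j => ((mlT u j : ℚ) : ℂ)) (id : Fin (2 * i) → Fin (2 * i))
    have h6 : (fun l : Fin (2 * i) → Fin (2 * g) => ((mlT u (fun a => (id a, l a)) : ℚ) : ℂ)) =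
        fun l => ((u l : ℚ) : ℂ) := by
      funext l
      exact congrArg (fun q : ℚ => (q : ℂ)) (mlT_id u l)
    rw [h6] at h5
    rw [h5]
    funext l
    exact congrFun h4 (fun a => (id a, l a))
  · rw [odd_killed D hd hu']
    funext j
    simp [DM]

end MP_021685_agTS
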