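import Pool.Agent.Lib.MP_021685_agTS.G0
import Pool.Agent.Lib.MP_021685_agP.PE
import Pool.Agent.Lib.MP_021685_agS.TI
import Pool.Agent.Lib.MP_802513_agD.DLc

/-!
# The fixed tensors are killed
-/

set_option autoImplicit false
set_option linter.unusedSectionVars false

namespace MP_021685_agTS

open Matrix Function Module Filter Pool.Agent.Lib.MP_802513_ag Pool.Agent.Lib.MP_802513_agH
  Pool.Agent.Lib.MP_802513_agU Pool.Agent.Lib.MP_802513_agS Pool.Agent.Lib.MP_802513_agD
  Pool.Agent.Lib.MP_021685_agP Pool.Agent.Lib.MP_021685_agS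
open scoped TensorProduct

variable {k : ℕ} {D : PData (Fin k)} {N : Type*} [Fintype N] [DecidableEq N]

/-- The derivation on `n` copies is computed by slices. -/
private theorem B8_slice {I : Type*} [Fintype I] [DecidableEq I] {n d : ℕ} (X : Matrix I I ℂ)
    (T : (Fin d → Fin n × I) → ℂ) (α : Fin d → Fin n) (l : Fin d → I) :
    DM (kr n X) T (fun s => (α s, l s)) = DM X (fun l => T fun s => (α s, l s)) l := by
  unfold DM
  refine Finset.sum_congr rfl fun a _ => ?_
  rw [Fintype.sum_prod_type, Finset.sum_eq_single (α a)]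
  · refine Finset.sum_congr rfl fun m _ => ?_
    have h1 : update (fun c => (α c, l c)) a (α a, m) = fun c => (α c, update l a m c) := by
      funext c
      by_cases h : c = a
      · subst h
        rw [update_self, update_self]
      · rw [update_of_ne h, update_of_ne h]
    have h2 : kr n X (α a, m) (α a, l a) = X m (l a) := by
      rw [kr_apply, if_pos rfl]
    rw [h2]
    exact congrArg (fun t => T t * X m (l a)) h1
  · intro c _ hc
    refine Finset.sum_eq_zero fun m _ => ?_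
    have h2 : kr n X (c, m) (α a, l a) = 0 := by
      rw [kr_apply, if_neg hc]
    rw [h2, mul_zero]
  · intro h
    exact absurd (Finset.mem_univ _) h

/-- The fixed tensors are killed by the matrices which kill the system. -/
private theorem B8_le (Q : QSys D) (Fr : FrM D N) {Γ : Submodule ℂ (Matrix (N ⊕ N) (N ⊕ N) ℂ)}
    (hΓ : Γ ≤ ann (Q.CF Fr)) (n d : ℕ) : InvAlt (Q.CF Fr).K n d ≤ killed Γ n d := by
  intro T hT
  obtain ⟨h1, h2⟩ := (mem_InvAlt_CF Q Fr n d).1 hT
  refine ⟨h1, fun X hX => ?_⟩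
  funext j
  have h3 := B8_slice X T (fun s => (j s).1) (fun s => (j s).2)
  have h4 := hΓ hX d _ (h2 fun s => (j s).1)
  rw [h4] at h3
  exact h3

/-- PROOF. `InvAlt` of the group of `Q.CF Fr` is in `killed Γ`: by `mem_InvAlt_CF` the slices of an
element are in `(Q.CF Fr).T d`, so they are killed by `Γ ≤ ann (Q.CF Fr)`, and `DM (kr n X)` is computed by
slices (`DM_lift_slice`, `kr n X` is `lift (Fin n) X`). `Submodule.finrank_mono`, sums. -/
theorem tdim_le_kdim (Q : QSys D) (Fr : FrM D N) {Γ : Submodule ℂ (Matrix (N ⊕ N) (N ⊕ N) ℂ)}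
    (hΓ : Γ ≤ ann (Q.CF Fr)) (n : ℕ) : tdim (Q.CF Fr).K n ≤ kdim Γ n :=
  Finset.sum_le_sum fun d _ => Submodule.finrank_mono (B8_le Q Fr hΓ n d)

/-- PROOF. As `tdim_le_kdim`, with equality: a killed alternating tensor has killed slices
(`DM_lift_slice`), which are in `(Q.CF Fr).T d` by the hypothesis (`mem_InvAlt_CF`). -/
theorem tdim_eq_kdim (Q : QSys D) (Fr : FrM D N) {Γ : Submodule ℂ (Matrix (N ⊕ N) (N ⊕ N) ℂ)}
    (hΓ : Γ ≤ ann (Q.CF Fr)) (h : ∀ (d : ℕ) (t : (Fin d → N ⊕ N) → ℂ), (∀ X ∈ Γ, DM X t = 0) →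
      t ∈ (Q.CF Fr).T d) (n : ℕ) : tdim (Q.CF Fr).K n = kdim Γ n := by
  refine Finset.sum_congr rfl fun d _ => ?_
  have h1 : InvAlt (Q.CF Fr).K n d = killed Γ n d := by
    refine le_antisymm (B8_le Q Fr hΓ n d) fun T hT => ?_
    refine (mem_InvAlt_CF Q Fr n d).2 ⟨hT.1, fun α => h d _ fun X hX => ?_⟩
    funext l
    rw [← B8_slice X T α l, hT.2 X hX]
    rfl
  rw [h1]

end MP_021685_agTS
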