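import Pool.Agent.Lib.MP_021685_agTS.A9
import Pool.Agent.Lib.MP_021685_agP.PE
import Pool.Agent.Lib.MP_021685_agS.TI
import Pool.Agent.Lib.MP_021685_agTS.B9

/-!
# The Hodge classes among the Tate classes
-/

set_option autoImplicit false
set_option linter.unusedSectionVars false

namespace MP_021685_agTS

open Matrix Function Module Filter Pool.Agent.Lib.MP_802513_ag Pool.Agent.Lib.MP_802513_agH
  Pool.Agent.Lib.MP_802513_agU Pool.Agent.Lib.MP_802513_agS Pool.Agent.Lib.MP_802513_agD
  Pool.Agent.Lib.MP_021685_agP Pool.Agent.Lib.MP_021685_agS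
open scoped TensorProduct

open MP_802513_agC MP_021685_agC

variable {A : AV}

/-- **Any positive share of Hodge classes**: if the Tate classes are not all Hodge classes then the share of
the Hodge classes tends to zero.
PROOF. The coordinates as in `hodge_le_tate`; `exists_tensor_of_not`, `ratio_zero` for
`C = (fullQ D).CF Fr`, `Γ = PE_g Fr (skewPart ..)` (`skew_le`), `dimFam_hodge_eq`, `dimTate_eq`. -/
theorem share_zero (G : Gal A) (h : ¬ G.AllTate (hodge A)) :
    Tendsto (fun n : ℕ => dimFam (hodge A) n / dimTate G n) atTop (nhds 0) := by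
  obtain ⟨g, b, -, hb⟩ := Pool.Agent.Lib.MP_802513_agS.exists_basis A.isAV.lattice
  obtain ⟨B, hB⟩ := A.isAV.polarized
  obtain ⟨D, hJ, -⟩ := exists_pdata b hb hB
  obtain ⟨e, he⟩ := exists_latBasis ℂ hb
  obtain ⟨g', ⟨Fr⟩⟩ := exists_frM D
  obtain ⟨d, w, hw, hne⟩ := exists_tensor_of_not G Fr hb he hJ h
  refine (ratio_zero ((fullQ D).CF Fr) (skew_le G Fr hb he hJ) hw hne).congr fun n => ?_
  rw [dimFam_hodge_eq Fr hb hJ, dimTate_eq G Fr hb he hJ]

end MP_021685_agTS
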