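import Pool.Agent.Lib.MP_021685_agTS.B10
import Pool.Agent.Lib.MP_021685_agP.PE
import Pool.Agent.Lib.MP_021685_agS.TI
import Pool.Agent.Lib.MP_802513_agD.DP
import Pool.Agent.Lib.MP_021685_agP.PP

/-!
# The density law for the Tate classes
-/

set_option autoImplicit false
set_option linter.unusedSectionVars false

namespace MP_021685_agTS

open Matrix Function Module Filter Pool.Agent.Lib.MP_802513_ag Pool.Agent.Lib.MP_802513_agH
  Pool.Agent.Lib.MP_802513_agU Pool.Agent.Lib.MP_802513_agS Pool.Agent.Lib.MP_802513_agD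
  Pool.Agent.Lib.MP_021685_agP Pool.Agent.Lib.MP_021685_agS
open scoped TensorProduct

open MP_802513_agC MP_021685_agC

variable {A : AV}

private theorem B11_dimFam {C : Fam A} (hC : IsStableFam A C) (n : ℕ) :
    dimFam C n = totalDim (toFam C hC) n := by
  unfold dimFam totalDim
  refine Finset.sum_congr rfl fun i _ => ?_
  have h : Submodule.span ℚ {η : (A.pow n).Cl i | C n i η} = toFam C hC n i :=
    le_antisymm (Submodule.span_le.2 fun η h => h) fun η h => Submodule.subset_span h
  rw [h]

private theorem B11_div {C : Fam A} (hC : IsStableFam A C) (h1 : HasDivisors C) :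
    ContainsDivisors A.L (toFam C hC) := fun i hi ω hω => h1 i hi ω hω

private theorem B11_mono {C C' : Fam A} (h : ∀ n i η, C n i η → C' n i η) {n i : ℕ}
    {θ : CCl A n i} (hθ : IsComb C θ) : IsComb C' θ := by
  refine Submodule.span_mono ?_ hθ
  rintro ξ ⟨η, h1, h2⟩
  exact ⟨η, h n i η h1, h2⟩

private theorem B11_all {C : Fam A} (hC : IsStableFam A C) (G : Gal A) (h : G.AllTate C) :
    ContainsAll A.L (toFam C hC) := by
  intro n i η hη
  obtain ⟨g, b, -, hb⟩ := Pool.Agent.Lib.MP_802513_agS.exists_basis A.isAV.lattice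
  obtain ⟨e, he⟩ := exists_latBasis ℂ hb
  exact hodge_mem (γ := G.γ) (c := G.c) (C := toFam C hC) (toFam_stable hC).isHodge hb he
    (fun n i θ hθ => G.hodge n i θ hθ) (fun θ hθ => h n i θ hθ) hη

private theorem B11_tate_nonneg (G : Gal A) (n : ℕ) : 0 ≤ dimTate G n :=
  Finset.sum_nonneg fun _ _ => Nat.cast_nonneg _

private theorem B11_fam_nonneg (C : Fam A) (n : ℕ) : 0 ≤ dimFam C n :=
  Finset.sum_nonneg fun _ _ => Nat.cast_nonneg _

/-- PROOF. A family of Hodge classes has at most the dimension of all the Hodge classes: `totalDim_le`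
(`MP_802513_agD/ORs.lean`) for `toFam C hC`, or directly `Submodule.finrank_mono` (the space of the Hodge
classes is finite dimensional over `ℚ`); `dimFam C n = totalDim (toFam C hC) n` (the span of a subspace). -/
theorem dimFam_le {C : Fam A} (hC : IsStableFam A C) (h1 : HasDivisors C) (n : ℕ) :
    dimFam C n ≤ dimFam (hodge A) n := by
  rw [B11_dimFam hC n, dimFam_hodge, allHodge_eq]
  exact totalDim_le A.isAV (toFam_stable hC) (B11_div hC h1) n

/-- **The density law for the Tate classes.**
PROOF. `density_law A.isAV hB rfl rfl` for a Riemann form `B` gives `κ`. Let `C` be a stable family with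
the divisor classes, `C' = toFam C hC` (`toFam_stable`; `ContainsDivisors` is `HasDivisors`), and `l` its
limit for `C'`; `totalDim C' n = dimFam C n` (the span of a subspace), `totalDim (allHodge L) n = dimFam (hodge A) n`
(`dimFam_hodge`). If `G.AllTate (hodge A)`: `dimTate G n = dimFam (hodge A) n` (`tate_eq_hodge`), so the
same `l` works; `1 / 2 < l` iff `C'` contains all the Hodge classes, iff `G.AllTate C` (from left to right
monotonicity of spans; from right to left `hodge_mem_of_tate` of `MP_021685_agV/VA.lean` with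
`G.hodge`); `0 < l` gives `κ ∈ C`. If not: `l = 0`, by `share_zero`, `dimFam_le` and squeezing
(`dimTate G n ≥ dimFam (hodge A) n ≥ 0`); `G.AllTate C` is false, because the classes of `C` are Hodge
classes (`hC.hodge`, span monotone). -/
theorem tate_law (A : AV) (G : Gal A) :
    ∃ κ : (A.pow 4).Cl 2, (A.pow 4).IsHodge κ ∧
      ∀ C : Fam A, IsStableFam A C → HasDivisors C → ∃ l : ℝ,
        Tendsto (fun n : ℕ => dimFam C n / dimTate G n) atTop (nhds l) ∧
        (l = 0 ∨ ∃ m : ℕ, 0 < m ∧ l = 1 / m) ∧ (1 / 2 < l ↔ G.AllTate C) ∧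
        (0 < l → G.AllTate (hodge A) ∧ C 4 2 κ) := by
  obtain ⟨B, hB⟩ := A.isAV.polarized
  obtain ⟨κ, hκ, hlaw⟩ := density_law A.isAV hB rfl rfl
  refine ⟨κ, hκ, fun C hC h1 => ?_⟩
  obtain ⟨l, e, hl, hcase, hhalf, hpos, -⟩ := hlaw (toFam C hC) (toFam_stable hC) (B11_div hC h1)
  by_cases hG : G.AllTate (hodge A)
  · refine ⟨l, ?_, ?_, ?_, ?_⟩
    · refine hl.congr fun n => ?_
      rw [B11_dimFam hC, tate_eq_hodge G hG n, dimFam_hodge]
    · rcases hcase with h | ⟨m, hm, -, h⟩
      · exact Or.inl h
      · exact Or.inr ⟨m, hm, h⟩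
    · rw [hhalf]
      constructor
      · intro h n i θ hθ
        exact B11_mono (fun n i η hη => h n i η hη) (hG n i θ hθ)
      · exact B11_all hC G
    · intro h
      exact ⟨hG, (hpos.1 h).1⟩
  · refine ⟨0, ?_, Or.inl rfl, ?_, ?_⟩
    · refine squeeze_zero (fun n => div_nonneg (B11_fam_nonneg C n) (B11_tate_nonneg G n))
        (fun n => ?_) (share_zero G hG)
      exact div_le_div_of_nonneg_right (dimFam_le hC h1 n) (B11_tate_nonneg G n)
    · constructor
      · intro h
        norm_num at h
      · intro h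
        exact absurd (fun n i θ hθ => B11_mono (fun n i η hη => hC.hodge n i η hη) (h n i θ hθ)) hG
    · intro h
      exact absurd h (lt_irrefl _)

end MP_021685_agTS
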