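import Pool.Agent.Lib.MP_021685_agTS.A9
import Pool.Agent.Lib.MP_021685_agTS.E1
import Pool.Agent.Lib.MP_021685_agTS.E2
import Pool.Agent.Lib.MP_021685_agTS.E4
import Pool.Agent.Lib.MP_021685_agTS.E5
import Pool.Agent.Lib.MP_021685_agTS.E6

/-!
# The quotient of the dimensions, with an explicit bound
-/

set_option autoImplicit false
set_option linter.unusedSectionVars false

namespace MP_021685_agTS

open Matrix Function Module Pool.Agent.Lib.MP_802513_ag Pool.Agent.Lib.MP_802513_agH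
  Pool.Agent.Lib.MP_802513_agU Pool.Agent.Lib.MP_802513_agS Pool.Agent.Lib.MP_802513_agD

variable {N : Type*} [Fintype N] [DecidableEq N] {S : Type*} [Fintype S] [DecidableEq S]

/-- **The quotient of the dimensions.**
PROOF. As `ratio_zero` (`A9.lean`): `w'` of `exists_orth`, the path of `exists_path`,
`g u = ((1 + φ u) / 2) ^ k`, `φ = mc w' ((nsq w')⁻¹ • w')`; `η = re (avg ‖g‖) ≤ 3 t + exp (- k t ^ 2 / 8)`
(`avg_half_le`); `‖avg (g u * det (1 + u) ^ n)‖ ≤ kdim Γ n * η` (`sum_trace_Bop`, `norm_trace_Bop_le`,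
`DM_Bop_pow`), and `tdim / 2 ≤ ‖avg (g u * det (1 + u) ^ n)‖` by `half_le_avg` with `L = k card S / 2`
(`norm_one_sub_le`, `GLe_det_nonneg`, `128 L ^ 2 = 32 (k card S) ^ 2`). -/
theorem ratio_le (C : TSys N) {Γ : Submodule ℂ (Matrix (N ⊕ N) (N ⊕ N) ℂ)} (hΓ : Γ ≤ ann C)
    {w : (S → N ⊕ N) → ℂ} (hw : ∀ X ∈ Γ, DM X w = 0) (hne : ∃ X ∈ ann C, DM X w ≠ 0) {k n : ℕ}
    (hk : 0 < k) (hS : 0 < Fintype.card S) {t : ℝ} (ht : 0 < t)
    (hn : 2 ^ Fintype.card (N ⊕ N) * ((n : ℝ) / 2 + 1) ^ Fintype.card (N ⊕ N) ^ 2 *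
      Real.exp (-(n / (32 * (k * Fintype.card S) ^ 2))) ≤ 1 / 8) :
    (tdim C.K n : ℝ) ≤ 2 * (3 * t + Real.exp (-(k * t ^ 2 / 8))) * kdim Γ n := by
  classical
  have him : ∀ u ∈ C.K, (1 + u).det.im = 0 := fun u hu => im_det hu.1
  obtain ⟨w', hw0, hw', ho⟩ := exists_orth C hΓ hw hne
  obtain ⟨p, hp, h0, hpK, h1⟩ := exists_path C hw0 ho
  have hgc : Continuous fun u : Matrix (N ⊕ N) (N ⊕ N) ℂ =>
      ((1 + mc w' (((nsq w')⁻¹ : ℝ) • w') u) / 2) ^ k :=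
    ((continuous_const.add (continuous_mc w' _)).div_const 2).pow k
  have hη := avg_half_le (CK_ugrp C) hw0 hp h0 hpK h1 ht k
  set η : ℝ := ((CK_ugrp C).avg fun u =>
          ((‖((1 + mc w' (((nsq w')⁻¹ : ℝ) • w') u) / 2) ^ k‖ : ℝ) : ℂ)).re with hηdef
  have hk0 : (0 : ℝ) < k := Nat.cast_pos.2 hk
  have hS0 : (0 : ℝ) < Fintype.card S := Nat.cast_pos.2 hS
  have hL : (0 : ℝ) < k * Fintype.card S / 2 := by positivity
  have hn' : 2 ^ Fintype.card (N ⊕ N) * ((n : ℝ) / 2 + 1) ^ Fintype.card (N ⊕ N) ^ 2 *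
      Real.exp (-(n / (128 * ((k : ℝ) * Fintype.card S / 2) ^ 2))) ≤ 1 / 8 := by
    have e1 : (128 : ℝ) * ((k : ℝ) * Fintype.card S / 2) ^ 2 = 32 * (k * Fintype.card S) ^ 2 := by ring
    rw [e1]
    exact hn
  have hb : ∀ u ∈ C.K, ‖((1 + mc w' (((nsq w')⁻¹ : ℝ) • w') u) / 2) ^ k‖ ≤ 1 := by
    intro u hu
    refine (norm_half_le hu.1.1 hw0 k).trans ?_
    rw [Real.exp_le_one_iff, neg_nonpos]
    positivity
  have h2 := half_le_avg (CK_ugrp C) him (fun u hu => GLe_det_nonneg hu.1) hgc hb hL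
    (fun u hu => norm_one_sub_le hu.1.1 hw0 k) hn'
  rw [← sum_trace_Bop (CK_ugrp C) him hgc n] at h2
  have h3 : ∀ d ∈ Finset.range (n * Fintype.card (N ⊕ N) + 1),
      ‖(Bop (CK_ugrp C) (fun u => ((1 + mc w' (((nsq w')⁻¹ : ℝ) • w') u) / 2) ^ k) n d).trace‖ ≤
        finrank ℂ (killed Γ n d) * η := fun d _ =>
    norm_trace_Bop_le (CK_ugrp C) hgc n d fun T =>
      ⟨isAlt_Bop (CK_ugrp C) hgc n d T, fun X hX => DM_Bop_pow C (hΓ hX) (hw' X hX) _ k n d T⟩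
  have h4 := h2.trans ((norm_sum_le _ _).trans (Finset.sum_le_sum h3))
  rw [← Finset.sum_mul, ← Nat.cast_sum] at h4
  change (tdim C.K n : ℝ) / 2 ≤ (kdim Γ n : ℝ) * η at h4
  have h5 : (kdim Γ n : ℝ) * η ≤ (kdim Γ n : ℝ) * (3 * t + Real.exp (-(k * t ^ 2 / 8))) :=
    mul_le_mul_of_nonneg_left hη (Nat.cast_nonneg _)
  linarith

end MP_021685_agTS
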