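import Mathlib

/-!
# The explicit bound
-/

set_option autoImplicit false

namespace MP_021685_agTS

/-- From the power `n ≥ boundT g s` on the share `s` decides. -/
noncomputable def boundT (g : ℕ) (s : ℝ) : ℝ := 10 ^ 17 * (g : ℝ) ^ 3 / s ^ 8

private theorem E8_first {s : ℝ} (hs : 0 < s) {K : ℝ} (hK : 18432 / s ^ 3 ≤ K) :
    2 * (3 * (s / 24) + Real.exp (-(K * (s / 24) ^ 2 / 8))) < s := by
  have h1 : 4 / s ≤ K * (s / 24) ^ 2 / 8 := by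
    have h2 : 4 / s = 18432 / s ^ 3 * (s / 24) ^ 2 / 8 := by
      field_simp
      norm_num
    rw [h2]
    have h3 := mul_le_mul_of_nonneg_right hK (sq_nonneg (s / 24))
    linarith
  have h4 : 0 < 4 / s := by positivity
  have h5 : Real.exp (-(K * (s / 24) ^ 2 / 8)) < s / 4 := by
    rw [Real.exp_neg]
    have h6 : 4 / s < Real.exp (K * (s / 24) ^ 2 / 8) := by
      have h7 := Real.add_one_le_exp (K * (s / 24) ^ 2 / 8)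
      linarith
    have h8 : s / 4 = (4 / s)⁻¹ := by rw [inv_div]
    rw [h8]
    exact inv_strictAnti₀ h4 h6
  linarith

private theorem E8_x {g : ℕ} (hg : 1 ≤ g) {s : ℝ} (hs : 0 < s) (hs1 : s ≤ 1) {n x : ℝ} (hx : 0 ≤ x)
    (hxn : x ^ 4 = n) (hn : 10 ^ 17 * (g : ℝ) ^ 3 / s ^ 8 ≤ n) :
    5 ≤ x ∧ 17 * (g : ℝ) ^ 2 * x * (174 * 10 ^ 9) ≤ n * s ^ 6 := by
  have hg1 : (1 : ℝ) ≤ g := by exact_mod_cast hg
  have hs8 : s ^ 8 ≤ 1 := pow_le_one₀ hs.le hs1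
  have h1 : (10 : ℝ) ^ 17 ≤ n := by
    refine le_trans ?_ hn
    rw [le_div_iff₀ (by positivity)]
    have h2 : (1 : ℝ) ≤ (g : ℝ) ^ 3 := one_le_pow₀ hg1
    nlinarith
  refine ⟨?_, ?_⟩
  · refine (pow_le_pow_iff_left₀ (by norm_num) hx (n := 4) (by norm_num)).1 ?_
    rw [hxn]
    refine le_trans ?_ h1
    norm_num
  · have h3 : 2958 * 10 ^ 9 * (g : ℝ) ^ 2 / s ^ 6 ≤ x ^ 3 := by
      refine (pow_le_pow_iff_left₀ (by positivity) (by positivity) (n := 4) (by norm_num)).1 ?_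
      have h4 : (x ^ 3) ^ 4 = n ^ 3 := by rw [← hxn]; ring
      rw [h4]
      have h5 : (2958 * 10 ^ 9 * (g : ℝ) ^ 2 / s ^ 6) ^ 4 ≤ (10 ^ 17 * (g : ℝ) ^ 3 / s ^ 8) ^ 3 := by
        have e1 : (2958 * 10 ^ 9 * (g : ℝ) ^ 2 / s ^ 6) ^ 4 =
            (2958 * 10 ^ 9) ^ 4 * (g : ℝ) ^ 8 / s ^ 24 := by ring
        have e2 : (10 ^ 17 * (g : ℝ) ^ 3 / s ^ 8) ^ 3 = (10 ^ 17) ^ 3 * (g : ℝ) ^ 9 / s ^ 24 := by ring
        rw [e1, e2]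
        refine div_le_div_of_nonneg_right ?_ (by positivity)
        have h6 : (g : ℝ) ^ 8 ≤ (g : ℝ) ^ 9 := pow_le_pow_right₀ hg1 (by norm_num)
        have h7 : (2958 * 10 ^ 9 : ℝ) ^ 4 ≤ (10 ^ 17) ^ 3 := by norm_num
        exact mul_le_mul h7 h6 (by positivity) (by positivity)
      exact h5.trans (pow_le_pow_left₀ (by positivity) hn 3)
    rw [div_le_iff₀ (by positivity)] at h3
    have h8 := mul_le_mul_of_nonneg_right h3 hx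
    have h9 : x ^ 3 * s ^ 6 * x = n * s ^ 6 := by rw [← hxn]; ring
    rw [h9] at h8
    linarith

/-- PROOF. `t = s / 24`, `k = ⌈18432 / s ^ 3⌉₊ ≤ 18433 / s ^ 3`. First: `y = k t ^ 2 / 8 = k s ^ 2 / 4608 ≥ 4 / s`,
so `exp (- y) < 1 / y ≤ s / 4` and `2 (3 t + exp (- y)) < s / 4 + s / 2 < s`. Second:
`32 (4 k) ^ 2 = 512 k ^ 2 ≤ Q` with `Q = 1.74 * 10 ^ 11 / s ^ 6`; to prove is
`2 g log 2 + 4 g ^ 2 log (n / 2 + 1) + log 8 ≤ n / Q` (take logarithms). Let `x = n ^ (1 / 4)` (two square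
roots), `x ≥ 17000` as `n ≥ 10 ^ 17`. `log (n / 2 + 1) ≤ log n = 4 log x ≤ 4 x`, so the left side is
`≤ 2 g + 3 + 16 g ^ 2 x ≤ 17 g ^ 2 x`, and `n / Q = x ^ 4 s ^ 6 / (1.74 * 10 ^ 11)`: to prove is
`x ^ 3 ≥ 2.96 * 10 ^ 12 g ^ 2 / s ^ 6`, which follows from
`(x ^ 3) ^ 4 = n ^ 3 ≥ 10 ^ 51 g ^ 9 / s ^ 24 ≥ (2.96 * 10 ^ 12 g ^ 2 / s ^ 6) ^ 4` (`7.7 * 10 ^ 49 g ^ 8 / s ^ 24`). -/
theorem exists_kt {g : ℕ} (hg : 1 ≤ g) {s : ℝ} (hs : 0 < s) (hs1 : s ≤ 1) {n : ℕ}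
    (hn : boundT g s ≤ n) : ∃ (k : ℕ) (t : ℝ), 0 < k ∧ 0 < t ∧
      2 * (3 * t + Real.exp (-(k * t ^ 2 / 8))) < s ∧
      2 ^ (2 * g) * ((n : ℝ) / 2 + 1) ^ (2 * g) ^ 2 *
        Real.exp (-(n / (32 * (k * (4 : ℕ)) ^ 2))) ≤ 1 / 8 := by
  have hn' : 10 ^ 17 * (g : ℝ) ^ 3 / s ^ 8 ≤ (n : ℝ) := hn
  have hg1 : (1 : ℝ) ≤ g := by exact_mod_cast hg
  have hk1 : 18432 / s ^ 3 ≤ (⌈18432 / s ^ 3⌉₊ : ℝ) := Nat.le_ceil _
  have hk0 : 0 < 18432 / s ^ 3 := by positivity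
  have hk2 : (⌈18432 / s ^ 3⌉₊ : ℝ) < 18432 / s ^ 3 + 1 := Nat.ceil_lt_add_one hk0.le
  obtain ⟨k, hk⟩ : ∃ k : ℕ, k = ⌈18432 / s ^ 3⌉₊ := ⟨_, rfl⟩
  rw [← hk] at hk1 hk2
  have hkpos : (0 : ℝ) < k := lt_of_lt_of_le hk0 hk1
  have hkn : 0 < k := by exact_mod_cast hkpos
  refine ⟨k, s / 24, hkn, by positivity, E8_first hs hk1, ?_⟩
  -- the bound for `k`
  have hk3 : (k : ℝ) * s ^ 3 ≤ 18433 := by
    have h1 : (18432 / s ^ 3 + 1) * s ^ 3 = 18432 + s ^ 3 := by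
      field_simp
    have h2 : s ^ 3 ≤ 1 := pow_le_one₀ hs.le hs1
    have h3 := mul_le_mul_of_nonneg_right hk2.le (by positivity : 0 ≤ s ^ 3)
    linarith
  have hk4 : 512 * (k : ℝ) ^ 2 * s ^ 6 ≤ 174 * 10 ^ 9 := by
    have h1 : ((k : ℝ) * s ^ 3) ^ 2 ≤ 18433 ^ 2 := pow_le_pow_left₀ (by positivity) hk3 2
    have h2 : ((k : ℝ) * s ^ 3) ^ 2 = (k : ℝ) ^ 2 * s ^ 6 := by ring
    rw [h2] at h1
    have h3 : 512 * (k : ℝ) ^ 2 * s ^ 6 = 512 * ((k : ℝ) ^ 2 * s ^ 6) := by ring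
    rw [h3]
    norm_num at h1 ⊢
    linarith
  -- the fourth root
  obtain ⟨x, hx⟩ : ∃ x : ℝ, x = Real.sqrt (Real.sqrt n) := ⟨_, rfl⟩
  have hx0 : 0 ≤ x := by rw [hx]; exact Real.sqrt_nonneg _
  have hx4 : x ^ 4 = (n : ℝ) := by
    have h1 : x ^ 4 = (x ^ 2) ^ 2 := by ring
    rw [h1, hx, Real.sq_sqrt (Real.sqrt_nonneg _), Real.sq_sqrt (Nat.cast_nonneg n)]
  obtain ⟨hx5, hxb⟩ := E8_x hg hs hs1 hx0 hx4 hn'
  have hmain : 2 * (g : ℝ) + 16 * (g : ℝ) ^ 2 * x + 3 ≤ (n : ℝ) / (512 * (k : ℝ) ^ 2) := by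
    have h1 : 17 * (g : ℝ) ^ 2 * x ≤ (n : ℝ) / (512 * (k : ℝ) ^ 2) := by
      rw [le_div_iff₀ (by positivity)]
      have h2 : 17 * (g : ℝ) ^ 2 * x * (512 * (k : ℝ) ^ 2 * s ^ 6) ≤
          17 * (g : ℝ) ^ 2 * x * (174 * 10 ^ 9) := mul_le_mul_of_nonneg_left hk4 (by positivity)
      have h3 : 17 * (g : ℝ) ^ 2 * x * (512 * (k : ℝ) ^ 2) * s ^ 6 ≤ n * s ^ 6 := by
        linarith
      exact le_of_mul_le_mul_right h3 (by positivity)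
    have h4 : 2 * (g : ℝ) + 3 ≤ (g : ℝ) ^ 2 * x := by
      have h5 : (g : ℝ) ^ 2 * 5 ≤ (g : ℝ) ^ 2 * x := mul_le_mul_of_nonneg_left hx5 (by positivity)
      nlinarith
    linarith
  -- the exponentials
  have he1 : (2 : ℝ) ≤ Real.exp 1 := by
    have h1 := Real.add_one_le_exp (1 : ℝ)
    linarith
  have h2g : (2 : ℝ) ^ (2 * g) ≤ Real.exp (2 * g) := by
    have h1 := pow_le_pow_left₀ (by norm_num) he1 (2 * g)
    rw [← Real.exp_nat_mul, mul_one] at h1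
    push_cast at h1
    exact h1
  have hnx : (n : ℝ) / 2 + 1 ≤ Real.exp (4 * x) := by
    have h1 : (n : ℝ) / 2 + 1 ≤ n := by
      have h2 : (5 : ℝ) ^ 4 ≤ x ^ 4 := pow_le_pow_left₀ (by norm_num) hx5 4
      rw [hx4] at h2
      have h2' : (5 : ℝ) ^ 4 = 625 := by norm_num
      rw [h2'] at h2
      linarith
    have h3 : x ≤ Real.exp x := by
      have h4 := Real.add_one_le_exp x
      linarith
    have h5 : x ^ 4 ≤ (Real.exp x) ^ 4 := pow_le_pow_left₀ hx0 h3 4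
    rw [hx4, ← Real.exp_nat_mul] at h5
    push_cast at h5
    exact h1.trans h5
  have hpow : ((n : ℝ) / 2 + 1) ^ (2 * g) ^ 2 ≤ Real.exp (16 * (g : ℝ) ^ 2 * x) := by
    have h1 := pow_le_pow_left₀ (by positivity) hnx ((2 * g) ^ 2)
    rw [← Real.exp_nat_mul] at h1
    have h2 : (((2 * g) ^ 2 : ℕ) : ℝ) * (4 * x) = 16 * (g : ℝ) ^ 2 * x := by
      push_cast
      ring
    rw [h2] at h1
    exact h1
  have hden : (32 * ((k : ℝ) * ((4 : ℕ) : ℝ)) ^ 2) = 512 * (k : ℝ) ^ 2 := by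
    push_cast
    ring
  rw [hden]
  have hprod : 2 ^ (2 * g) * ((n : ℝ) / 2 + 1) ^ (2 * g) ^ 2 ≤
      Real.exp (2 * g) * Real.exp (16 * (g : ℝ) ^ 2 * x) :=
    mul_le_mul h2g hpow (by positivity) (Real.exp_pos _).le
  refine (mul_le_mul_of_nonneg_right hprod (Real.exp_pos _).le).trans ?_
  rw [← Real.exp_add, ← Real.exp_add]
  have h8 : Real.exp (2 * (g : ℝ) + 16 * (g : ℝ) ^ 2 * x + -((n : ℝ) / (512 * (k : ℝ) ^ 2))) ≤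
      Real.exp (-3) := Real.exp_le_exp.2 (by linarith)
  refine h8.trans ?_
  rw [Real.exp_neg, one_div]
  refine inv_anti₀ (by norm_num) ?_
  have h9 : (8 : ℝ) ≤ (Real.exp 1) ^ 3 := by
    have h10 := pow_le_pow_left₀ (by norm_num) he1 3
    norm_num at h10 ⊢
    exact h10
  rw [← Real.exp_nat_mul, mul_one] at h9
  push_cast at h9
  exact h9

end MP_021685_agTS
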