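import Pool.Agent.Lib.MP_021685_agTS.B6
import Pool.Agent.Lib.MP_021685_agV.VA

/-!
# A tensor with four slots
-/

set_option autoImplicit false
set_option linter.unusedSectionVars false

namespace MP_021685_agTS

open Matrix Function Module Filter Pool.Agent.Lib.MP_802513_ag Pool.Agent.Lib.MP_802513_agH
  Pool.Agent.Lib.MP_802513_agU Pool.Agent.Lib.MP_802513_agS Pool.Agent.Lib.MP_802513_agD
  Pool.Agent.Lib.MP_021685_agP Pool.Agent.Lib.MP_021685_agS
open scoped TensorProduct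

open MP_802513_agC MP_021685_agC

variable {A : AV} {g : ℕ} {b : Basis (Fin (2 * g)) ℝ A.V} {D : PData (Fin (2 * g))}
  {e : Basis (Fin (2 * g)) ℂ (ℂ ⊗[ℤ] A.L)} {N : Type*} [Fintype N] [DecidableEq N]

/-- PROOF. As `Gal.old` in `MP_021685_agC/TConv.lean`: field by field. -/
theorem Gal.toV (G : Gal A) : Pool.Agent.Lib.MP_021685_agV.IsGaloisLie A.L G.γ G.c where
  lie := G.lie
  hodge := G.hodge
  divisor := G.divisor
  semisimple := G.semisimple
  sen := fun τ => by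
    obtain ⟨h, h1, h2⟩ := G.sen τ
    exact ⟨h, h1, h2⟩

/-- PROOF. `exists_decisive A.isAV G.toV` (`MP_021685_agV/VA.lean`) gives a Tate class `θ` of degree two on
`A ^ 4` which is a combination of Hodge classes only if all the Tate classes (of degree `i ≤ ..`; see
`TateAreHodge` in `MP_021685_agV/Dv.lean`, and `MP_021685_agC/TConv.lean`, `TMain.lean` for
`G.AllTate (hodge A)`) are; `exists_tensor_of_form` (`B6.lean`) for `θ`, `2 * 2 = 4`. -/
theorem exists_tensor_four (G : Gal A) (Fr : FrM D N)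
    (hb : ∀ w, w ∈ A.L ↔ ∀ l, ∃ n : ℤ, b.repr w l = n)
    (he : ∀ (l : Fin (2 * g)) (h : b l ∈ A.L), e l = 1 ⊗ₜ[ℤ] (⟨b l, h⟩ : A.L))
    (hJ : D.J = Pool.Agent.Lib.MP_802513_agH.rc (Pool.Agent.Lib.MP_802513_agH.Jr b))
    (h : ¬ G.AllTate (hodge A)) :
    ∃ w : (Fin 4 → N ⊕ N) → ℂ, (∀ X ∈ PE_g Fr (skewPart e D G.γ), DM X w = 0) ∧
      ∃ X ∈ ann ((fullQ D).CF Fr), DM X w ≠ 0 := by
  obtain ⟨θ, h1, h2⟩ := Pool.Agent.Lib.MP_021685_agV.exists_decisive A.isAV (Gal.toV G)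
  have hnot : ¬ IsComb (hodge A) (n := 4) (i := 2) θ := fun h' => h (h2.1 h')
  have hθ : G.IsTate (n := 4) (i := 2) θ := h1
  exact exists_tensor_of_form G Fr hb he hJ hθ hnot

end MP_021685_agTS
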