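import Pool.Agent.Lib.MP_021685_agTS.B10
import Pool.Agent.Lib.MP_021685_agTS.E7
import Pool.Agent.Lib.MP_021685_agTS.E8
import Pool.Agent.Lib.MP_021685_agTS.E9

/-!
# One power decides
-/

set_option autoImplicit false
set_option linter.unusedSectionVars false

namespace MP_021685_agTS

open Matrix Function Module Filter Pool.Agent.Lib.MP_802513_ag Pool.Agent.Lib.MP_802513_agH
  Pool.Agent.Lib.MP_802513_agU Pool.Agent.Lib.MP_802513_agS Pool.Agent.Lib.MP_802513_agD
  Pool.Agent.Lib.MP_021685_agP Pool.Agent.Lib.MP_021685_agS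
open scoped TensorProduct

open MP_802513_agC MP_021685_agC

/-- **One power decides**: if the share of the Hodge classes among the Tate classes on one power `A ^ n` with
`n ≥ boundT (dim A) s` is at least `s`, then all the Tate classes on all the powers of `A` are combinations
of Hodge classes; and then the share is `1` for all `n`.
PROOF. (→) `tate_eq_hodge`, `dimFam (hodge A) n ≥ 0`, `s ≤ 1`. (←) Otherwise, in the coordinates as in the
proof of `share_zero` (`B10.lean`), `exists_tensor_four` gives `w`. With `g = finrank ℂ A.V` (`DZ_finrank b`)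
and `Fintype.card (N ⊕ N) = 2 g` (as in `dimTate_eq`, `B4.lean`): if `g = 0` then `N ⊕ N` is empty, so there
are no indices `Fin 4 → N ⊕ N` and `DM X w = 0`, a contradiction. If `g ≥ 1`: `exists_kt`, `ratio_le` with
`S = Fin 4`, `tdim = dimFam (hodge A) n` (`dimFam_hodge_eq`), `kdim = dimTate G n` (`dimTate_eq`):
`dimFam (hodge A) n ≤ c * dimTate G n` with `c < s`, and `dimTate G n > 0`
(`hodge_le_tate`, `tdim_pos`), a contradiction. -/
theorem mt_iff (A : AV) (G : Gal A) {s : ℝ} (hs : 0 < s) (hs1 : s ≤ 1) {n : ℕ}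
    (hn : boundT (finrank ℂ A.V) s ≤ n) :
    G.AllTate (hodge A) ↔ s * dimTate G n ≤ dimFam (hodge A) n := by
  constructor
  · intro h
    rw [tate_eq_hodge G h n]
    have h0 : 0 ≤ dimFam (hodge A) n := by
      unfold dimFam
      exact Finset.sum_nonneg fun i _ => Nat.cast_nonneg _
    nlinarith
  · intro hle
    by_contra h
    obtain ⟨g, b, -, hb⟩ := Pool.Agent.Lib.MP_802513_agS.exists_basis A.isAV.lattice
    obtain ⟨B, hB⟩ := A.isAV.polarized
    obtain ⟨D, hJ, -⟩ := exists_pdata b hb hB
    obtain ⟨e, he⟩ := exists_latBasis ℂ hb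
    obtain ⟨g', ⟨Fr⟩⟩ := exists_frM D
    obtain ⟨w, hw, hne⟩ := exists_tensor_four G Fr hb he hJ h
    have hcard : Fintype.card (Fin g' ⊕ Fin g') = 2 * g := by
      have h1 := Matrix.square_of_invertible Fr.F' Fr.F Fr.F'F Fr.FF'
      rw [h1, Fintype.card_fin]
    have hfr : finrank ℂ A.V = g := by
      have h1 := finrank_real_of_complex A.V
      have h2 := Module.finrank_eq_card_basis b
      rw [Fintype.card_fin] at h2
      omega
    rcases Nat.eq_zero_or_pos g with hg | hg
    · obtain ⟨X, -, hX⟩ := hne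
      apply hX
      have h0 : Fintype.card (Fin g' ⊕ Fin g') = 0 := by rw [hcard, hg]
      have h1 : IsEmpty (Fin g' ⊕ Fin g') := Fintype.card_eq_zero_iff.1 h0
      funext j
      exact (h1.false (j 0)).elim
    · rw [hfr] at hn
      obtain ⟨k, t, hk, ht, h1, h2⟩ := exists_kt hg hs hs1 hn
      have h3 := ratio_le ((fullQ D).CF Fr) (skew_le G Fr hb he hJ) hw hne (k := k) (n := n) hk
        (by rw [Fintype.card_fin]; norm_num) ht (by rw [hcard, Fintype.card_fin]; exact h2)
      rw [← dimFam_hodge_eq Fr hb hJ, ← dimTate_eq G Fr hb he hJ] at h3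
      have h4 : 0 < dimFam (hodge A) n := by
        rw [dimFam_hodge_eq Fr hb hJ]
        exact Nat.cast_pos.2 (tdim_pos _ n)
      have h5 : 0 < dimTate G n := h4.trans_le (hodge_le_tate G n)
      have h6 : 2 * (3 * t + Real.exp (-(k * t ^ 2 / 8))) * dimTate G n < s * dimTate G n :=
        mul_lt_mul_of_pos_right h1 h5
      exact absurd (hle.trans h3) (not_le.2 h6)

end MP_021685_agTS
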