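import Pool.Agent.Lib.MP_021685_agTS.Defs

/-!
# The power which decides: definitions
-/

set_option autoImplicit false

noncomputable section

namespace MP_021685_agTS

/-- The larger of `g` and `g ^ (g / 2) / 2 ^ (g - 1)` (rounded down). -/
def orbitBound (g : ℕ) : ℕ := max g (Nat.sqrt (g ^ g / 4 ^ (g - 1)))

/-- The larger of `8000 x ^ 2 log (x + 1) / ε ^ 2`, `x = r g orbitBound g`, and
`10 ^ 17 g ^ 3 (r + 1) ^ 8`. -/
def powerBound (g r : ℕ) (ε : ℝ) : ℝ :=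
  max (8000 * ((r * orbitBound g * g : ℕ) : ℝ) ^ 2 *
    Real.log (((r * orbitBound g * g : ℕ) : ℝ) + 1) / ε ^ 2) (10 ^ 17 * (g : ℝ) ^ 3 * ((r : ℝ) + 1) ^ 8)

end MP_021685_agTS
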