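import Pool.Agent.Lib.MP_021685_agTS.FDefs

/-!
# The dimension of the space of the Tate classes
-/

set_option autoImplicit false

noncomputable section

open Module MP_802513_agC MP_021685_agC

namespace MP_021685_agTS

/-- The dimension of the space of the combinations of the forms in `S`. -/
def dimSpan {H : Type} [AddCommGroup H] [Module ℂ H] {n i : ℕ} (S : Set (AForm H n i)) : ℝ :=
  finrank ℂ (Submodule.span ℂ S)

/-- The dimension of the space of the Tate classes, of all degrees, on `A ^ n`. -/
def dimT {A : AV} (G : Gal A) (n : ℕ) : ℝ :=
  ∑ i ∈ Finset.range (n * finrank ℂ A.V + 1), dimSpan {θ : CCl A n i | G.IsTate θ}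

theorem dimT_eq {A : AV} (G : Gal A) : dimT G = dimTate G := rfl

end MP_021685_agTS
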