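import Pool.Agent.Lib.MP_021685_agTS.GDefs

/-!
# The share of a system on one power of each abelian variety
-/

set_option autoImplicit false

noncomputable section

open Module MP_802513_agC MP_021685_agC

namespace MP_021685_agTS

/-- Each abelian variety `A`, `g = dim A`, has a power `A ^ n`, `n ≥ powerBound g (r g) (ε g)`, on which the
share of the classes of `C` among the Tate classes is at least `(1 + ε g) / (r g + 1)`. -/
def HasShare (r : ℕ → ℕ) (ε : ℕ → ℝ) (G : ∀ A : AV, Gal A) (C : Sys) : Prop :=
  ∀ A : AV, ∃ n : ℕ,
    powerBound (finrank ℂ A.V) (r (finrank ℂ A.V)) (ε (finrank ℂ A.V)) ≤ n ∧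
      (1 + ε (finrank ℂ A.V)) * dimT (G A) n ≤ (r (finrank ℂ A.V) + 1) * dimFam (onPow C A) n

/-- On the powers of every abelian variety all the Tate classes are combinations of classes in `C`. -/
def AllTate (G : ∀ A : AV, Gal A) (C : Sys) : Prop := ∀ A : AV, (G A).AllTate (onPow C A)

end MP_021685_agTS
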